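import Pool.Agent.Q186.BH.ExE

/-!
# A PMC proper biharmonic immersion into a sphere whose `A_H` is not parallel

`IsSphImm U φ` : `U` is open and `φ` is a smooth immersion of `U` into the unit sphere;
`IsPMC U φ` : the mean curvature vector field is parallel in the normal bundle;
`IsBiharmonic U φ` : the bitension field vanishes; `mcv φ` : the mean curvature vector field;
`covShape φ k i j` : the components `(∇ₖ A_H)ⁱⱼ`.  All are defined in `Pool.Agent.Q186.BH.Defs`.
-/

namespace Pool.Agent.Results.MP_4617b5_gt.NonParallelShape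

open Pool.Agent.Q186.BH

theorem result : ∃ (U : Set (Fin 10 → ℝ)) (φ : (Fin 10 → ℝ) → EuclideanSpace ℝ (Fin 23)),
    IsConnected U ∧ IsSphImm U φ ∧ IsPMC U φ ∧ IsBiharmonic U φ ∧ (∀ x ∈ U, mcv φ x ≠ 0) ∧
      ∀ x ∈ U, ∃ k i j, covShape φ k i j x ≠ 0 := by
  have hc : Fintype.card Iot = Fintype.card (Fin 23) := by simp [Iot]
  let σ : Iot ≃ Fin 23 := Fintype.equivOfCardEq hc
  let e : Iot → EuclideanSpace ℝ (Fin 23) := fun a => EuclideanSpace.single (σ a) (1 : ℝ)
  have he : ∀ a b, inner ℝ (e a) (e b) = if a = b then (1 : ℝ) else 0 := by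
    intro a b
    simp [e, EuclideanSpace.inner_single_left, EuclideanSpace.single_apply, σ.injective.eq_iff]
  obtain ⟨φ, h1, h2, h3, h4, h5⟩ := example_exists he
  exact ⟨UU, φ, isConnected_UU, h1, h2, h3, h4, h5⟩

end Pool.Agent.Results.MP_4617b5_gt.NonParallelShape
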